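import Pool.Agent.H974R2.Plan4
import Pool.Agent.H984R4.NP.Clu
import Pool.Agent.N116.EW.Defs

/-!
Project PN, subtask PN/VW (helper531): geometry for the long excursions near the wired arc.
-/

set_option autoImplicit false

namespace Pool.Agent.N531.PN.VW

open H974 H12S H389NS H984N H984P H342P Finset
open Pool.Agent.N116.EW

theorem sd_le {u v : Vtx} {k : ℤ} : sd u v ≤ k ↔
    -k ≤ u.1 - v.1 ∧ u.1 - v.1 ≤ k ∧ -k ≤ u.2 - v.2 ∧ u.2 - v.2 ≤ k := by
  unfold sd; rw [max_le_iff, abs_le, abs_le]; tauto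

theorem le_sd {u v : Vtx} {k : ℤ} : k ≤ sd u v ↔
    k ≤ u.1 - v.1 ∨ k ≤ -(u.1 - v.1) ∨ k ≤ u.2 - v.2 ∨ k ≤ -(u.2 - v.2) := by
  unfold sd; rw [le_max_iff, le_abs, le_abs]; tauto

/-! ### Boxes -/

theorem blk_src {z : Vtx} {d : ℕ} {g : Edg} (h : g ∈ blk z d) : sd (src g) z ≤ d := by
  rw [sd_le]
  obtain ⟨x, y, _ | _⟩ := g
  · unfold blk at h; rw [mem_RE_false] at h; simp only [src_mk]; omega
  · unfold blk at h; rw [mem_RE_true] at h; simp only [src_mk]; omega

theorem blk_tgt {z : Vtx} {d : ℕ} {g : Edg} (h : g ∈ blk z d) : sd (tgt g) z ≤ d := by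
  rw [sd_le]
  obtain ⟨x, y, _ | _⟩ := g
  · unfold blk at h; rw [mem_RE_false] at h; simp only [tgt_false]; omega
  · unfold blk at h; rw [mem_RE_true] at h; simp only [tgt_true]; omega

theorem blk_dsrc {z : Vtx} {d : ℕ} {g : Edg} (h : g ∈ blk z d) : sd (dsrc g) z ≤ d + 1 := by
  rw [sd_le]
  obtain ⟨x, y, _ | _⟩ := g
  · unfold blk at h; rw [mem_RE_false] at h; simp only [dsrc_false]; omega
  · unfold blk at h; rw [mem_RE_true] at h; simp only [dsrc_true]; omega

theorem blk_dtgt {z : Vtx} {d : ℕ} {g : Edg} (h : g ∈ blk z d) : sd (dtgt g) z ≤ d + 1 := by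
  rw [sd_le]
  obtain ⟨x, y, _ | _⟩ := g
  · unfold blk at h; rw [mem_RE_false] at h; simp only [dtgt_mk]; omega
  · unfold blk at h; rw [mem_RE_true] at h; simp only [dtgt_mk]; omega

/-- An edge with an end in the interior of the box is in the box. -/
theorem mem_blk_of {z : Vtx} {R : ℕ} {g : Edg} {u : Vtx} (h : src g = u ∨ tgt g = u)
    (hu : sd u z < R) : g ∈ blk z R := by
  have hu' : sd u z ≤ (R : ℤ) - 1 := by omega
  rw [sd_le] at hu'
  obtain ⟨x, y, _ | _⟩ := g
  · unfold blk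
    rw [mem_RE_false]
    rcases h with rfl | rfl
    · simp only [src_mk] at hu'; omega
    · simp only [tgt_false] at hu'; omega
  · unfold blk
    rw [mem_RE_true]
    rcases h with rfl | rfl
    · simp only [src_mk] at hu'; omega
    · simp only [tgt_true] at hu'; omega

/-- A path from the small box which goes far crosses the annulus. -/
theorem cutP {P : Set Edg} {z : Vtx} {d R : ℕ} {v w : Vtx} (h : Reach P v w) (hv : sd v z ≤ d) :
    (∃ u, sd u z ≤ d ∧ Reach (P ∩ ↑(blk z R \ blk z d)) u w) ∨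
    (∃ u w', sd u z ≤ d ∧ (R : ℤ) ≤ sd w' z ∧ Reach (P ∩ ↑(blk z R \ blk z d)) u w') := by
  unfold Reach at h
  induction h with
  | refl => exact Or.inl ⟨v, hv, Reach.refl _ _⟩
  | @tail a b _ hst ih =>
    rcases ih with ⟨u, hu, hr⟩ | ih
    · obtain ⟨g, hg, hor⟩ := hst
      by_cases hd : g ∈ blk z d
      · left
        refine ⟨b, ?_, Reach.refl _ _⟩
        rcases hor with ⟨_, h2⟩ | ⟨h2, _⟩
        · rw [← h2]; exact blk_tgt hd
        · rw [← h2]; exact blk_src hd
      · by_cases hR : g ∈ blk z R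
        · left
          refine ⟨u, hu, hr.trans (Adj.reach ⟨g, ⟨hg, ?_⟩, hor⟩)⟩
          rw [Finset.mem_coe, Finset.mem_sdiff]
          exact ⟨hR, hd⟩
        · right
          refine ⟨u, a, hu, ?_, hr⟩
          by_contra hcon
          apply hR
          refine mem_blk_of (u := a) ?_ (by omega)
          rcases hor with ⟨h2, _⟩ | ⟨_, h2⟩
          · exact Or.inl h2
          · exact Or.inr h2
    · exact Or.inr ih

/-- A path stays in the box or reaches its boundary. -/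
theorem exitP {P : Set Edg} {z : Vtx} {R : ℕ} {v w : Vtx} (h : Reach P v w) (hv : sd v z ≤ R) :
    (sd w z ≤ R ∧ Reach (P ∩ ↑(blk z R)) v w) ∨
    (∃ w' ∈ bdR (z.1 - R) (z.1 + R) (z.2 - R) (z.2 + R), Reach (P ∩ ↑(blk z R)) v w') := by
  unfold Reach at h
  induction h with
  | refl => exact Or.inl ⟨hv, Reach.refl _ _⟩
  | @tail a b _ hst ih =>
    rcases ih with ⟨hu, hr⟩ | ih
    · obtain ⟨g, hg, hor⟩ := hst
      by_cases hR : g ∈ blk z R
      · left
        refine ⟨?_, hr.trans (Adj.reach ⟨g, ⟨hg, hR⟩, hor⟩)⟩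
        rcases hor with ⟨_, h2⟩ | ⟨h2, _⟩
        · rw [← h2]; exact blk_tgt hR
        · rw [← h2]; exact blk_src hR
      · right
        refine ⟨a, ?_, hr⟩
        have h3 : (R : ℤ) ≤ sd a z := by
          by_contra hcon
          apply hR
          refine mem_blk_of (u := a) ?_ (by omega)
          rcases hor with ⟨h2, _⟩ | ⟨_, h2⟩
          · exact Or.inl h2
          · exact Or.inr h2
        rw [sd_le] at hu
        rw [le_sd] at h3
        unfold bdR inR
        simp only [Set.mem_ofPred_eq]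
        omega
    · exact Or.inr ih

/-- A path which leaves the box reaches its boundary. -/
theorem exitP' {P : Set Edg} {z : Vtx} {R : ℕ} {v w : Vtx} (h : Reach P v w) (hv : sd v z ≤ R)
    (hw : (R : ℤ) ≤ sd w z) :
    ∃ w' ∈ bdR (z.1 - R) (z.1 + R) (z.2 - R) (z.2 + R), Reach (P ∩ ↑(blk z R)) v w' := by
  rcases exitP h hv with ⟨h1, h2⟩ | h1
  · refine ⟨w, ?_, h2⟩
    rw [sd_le] at h1
    rw [le_sd] at hw
    unfold bdR inR
    simp only [Set.mem_ofPred_eq]
    omega
  · exact h1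

/-- The last face of a dual path near the small box. -/
theorem cutD {S : Set Edg} {z : Vtx} {d R : ℕ} (hS : S ⊆ ↑(blk z R)) {f0 g : Vtx}
    (h : DReach S f0 g) (hf : sd f0 z ≤ d + 1) :
    ∃ f, sd f z ≤ d + 1 ∧ DReach S f0 f ∧ DReach (S ∩ ↑(blk z R \ blk z d)) f g := by
  unfold DReach at h
  induction h with
  | refl => exact ⟨f0, hf, DReach.refl _ _, DReach.refl _ _⟩
  | @tail a b hab hst ih =>
    obtain ⟨f, h1, h2, h3⟩ := ih
    obtain ⟨k, hk, hor⟩ := hst
    by_cases hd : k ∈ blk z d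
    · refine ⟨b, ?_, DReach.trans hab (DAdj.reach ⟨k, hk, hor⟩), DReach.refl _ _⟩
      rcases hor with ⟨_, h2⟩ | ⟨h2, _⟩
      · rw [← h2]; exact blk_dtgt hd
      · rw [← h2]; exact blk_dsrc hd
    · refine ⟨f, h1, h2, h3.trans (DAdj.reach ⟨k, ⟨hk, ?_⟩, hor⟩)⟩
      rw [Finset.mem_coe, Finset.mem_sdiff]
      exact ⟨hS hk, hd⟩

theorem outF_far {z : Vtx} {R : ℕ} {g : Vtx}
    (h : g ∈ outF (z.1 - R) (z.1 + R) (z.2 - R) (z.2 + R)) : (R : ℤ) ≤ sd g z := by
  unfold outF at h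
  simp only [Set.mem_ofPred_eq] at h
  rw [le_sd]
  omega

/-! ### The boundary of the rectangle -/

variable {D : Dm}

/-- The vertices of the left side and of the wired parts of the top and the bottom sides are in
the cluster. -/
theorem wired_bottom (F : Finset Edg) {a : ℤ} (h1 : D.l ≤ a) (h2 : a ≤ 0) :
    ((a, 0) : Vtx) ∈ D.clu F := by
  have e1 := clu_bottom (D := D) F (-a).toNat (by omega)
  have f1 : -(((-a).toNat : ℕ) : ℤ) = a := by omega
  rw [f1] at e1
  exact e1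

theorem wired_left (hD : D.Ok) (F : Finset Edg) {b : ℤ} (h1 : 0 ≤ b) (h2 : b ≤ D.h) :
    ((D.l, b) : Vtx) ∈ D.clu F := by
  have e1 : Reach (D.cfg F) (0, 0) (D.l, 0) := wired_bottom F le_rfl hD.l_neg.le
  have e2 := clu_left (D := D) F b.toNat (by omega)
  have f1 : ((b.toNat : ℕ) : ℤ) = b := by omega
  rw [f1] at e2
  exact e1.trans e2

theorem wired_top (hD : D.Ok) (F : Finset Edg) {a : ℤ} (h1 : D.l ≤ a) (h2 : a ≤ D.t) :
    ((a, D.h) : Vtx) ∈ D.clu F := by
  have e1 : Reach (D.cfg F) (0, 0) (D.l, D.h) := wired_left hD F hD.h_pos.le le_rfl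
  have e2 := clu_top (D := D) F (a - D.l).toNat (by omega)
  have f1 : D.l + (((a - D.l).toNat : ℕ) : ℤ) = a := by omega
  rw [f1] at e2
  exact e1.trans e2

theorem wir_clu (hD : D.Ok) (F : Finset Edg) {g : Edg} (hg : g ∈ D.wir) :
    src g ∈ D.clu F ∧ tgt g ∈ D.clu F := by
  obtain ⟨k1, k2, k3, k4, k5⟩ := hD
  obtain ⟨x, y, b⟩ := g
  unfold Dm.wir at hg
  simp only [Set.mem_ofPred_eq] at hg
  rcases hg with ⟨h1, h2, h3, h4⟩ | ⟨h1, h2, h3, h4⟩ | ⟨h1, h2, h3, h4⟩
  · subst h1 h2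
    exact ⟨wired_top ⟨k1, k2, k3, k4, k5⟩ F h3 h4.le,
      wired_top ⟨k1, k2, k3, k4, k5⟩ F (a := x + 1) (by omega) (by omega)⟩
  · subst h1 h2
    exact ⟨wired_left ⟨k1, k2, k3, k4, k5⟩ F h3 h4.le,
      wired_left ⟨k1, k2, k3, k4, k5⟩ F (b := y + 1) (by omega) (by omega)⟩
  · subst h1 h2
    exact ⟨wired_bottom F h3 h4.le, wired_bottom F (a := x + 1) (by omega) (by omega)⟩

/-- The retraction of the faces to the faces of the rectangle. -/
def ret (D : Dm) (f : Vtx) : Vtx := (max D.l (min f.1 (D.r - 1)), max 0 (min f.2 (D.h - 1)))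

theorem ret_step (hD : D.Ok) {k : Edg} (hk : k ∈ D.edges) :
    ret D (dsrc k) = ret D (dtgt k) ∨
      (ret D (dsrc k) = dsrc k ∧ ret D (dtgt k) = dtgt k ∧ k ∉ D.wir) := by
  obtain ⟨k1, k2, k3, k4, k5⟩ := hD
  obtain ⟨x, y, b⟩ := k
  unfold Dm.edges at hk
  unfold ret Dm.wir
  cases b
  · rw [mem_RE_false] at hk
    simp only [dsrc_false, dtgt_mk, Prod.mk.injEq, Set.mem_ofPred_eq]
    by_cases h : x = D.l ∨ x = D.r
    · left; exact ⟨by omega, trivial⟩
    · right
      refine ⟨by omega, by omega, ?_⟩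
      simp only [Bool.false_eq_true, false_and, true_and, or_false, false_or]
      omega
  · rw [mem_RE_true] at hk
    simp only [dsrc_true, dtgt_mk, Prod.mk.injEq, Set.mem_ofPred_eq]
    by_cases h : y = 0 ∨ y = D.h
    · left; exact ⟨trivial, by omega⟩
    · right
      refine ⟨by omega, by omega, ?_⟩
      simp only [Bool.true_eq_false, false_and, true_and, false_or]
      omega

/-- Dual paths and the retraction. -/
theorem ret_path (hD : D.Ok) {S T : Set Edg} (hT : T ⊆ ↑D.edges)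
    (hTS : ∀ k ∈ T, k ∉ D.wir → k ∈ S) {f g : Vtx} (h : DReach T f g) :
    DReach S (ret D f) (ret D g) := by
  unfold DReach at h
  induction h with
  | refl => exact DReach.refl _ _
  | @tail a b _ hst ih =>
    obtain ⟨k, hk, hor⟩ := hst
    rcases ret_step hD (hT hk) with h1 | ⟨h1, h2, h3⟩
    · rcases hor with ⟨h4, h5⟩ | ⟨h4, h5⟩
      · rw [h4, h5] at h1; rwa [← h1]
      · rw [h4, h5] at h1; rwa [h1]
    · refine ih.trans (DAdj.reach ⟨k, hTS k hk h3, ?_⟩)
      rcases hor with ⟨h4, h5⟩ | ⟨h4, h5⟩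
      · rw [h4] at h1; rw [h5] at h2
        left; rw [h1, h2]; exact ⟨h4, h5⟩
      · rw [h4] at h1; rw [h5] at h2
        right; rw [h1, h2]; exact ⟨h4, h5⟩

/-- An edge which is not wired and not next to an outer face. -/
theorem ret_fix {e : Edg} (he : e ∈ D.edges) (hw : e ∉ D.wir)
    (h1 : dsrc e ∉ D.outer) (h2 : dtgt e ∉ D.outer) :
    ret D (dsrc e) = dsrc e ∧ ret D (dtgt e) = dtgt e := by
  obtain ⟨x, y, b⟩ := e
  unfold Dm.edges at he
  unfold Dm.wir at hw
  unfold Dm.outer at h1 h2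
  unfold ret
  cases b
  · rw [mem_RE_false] at he
    simp only [dsrc_false, dtgt_mk, Prod.mk.injEq, Set.mem_ofPred_eq] at *
    simp only [Bool.false_eq_true, false_and, true_and, or_false, false_or] at hw
    omega
  · rw [mem_RE_true] at he
    simp only [dsrc_true, dtgt_mk, Prod.mk.injEq, Set.mem_ofPred_eq] at *
    simp only [Bool.true_eq_false, false_and, true_and, false_or] at hw
    omega

/-- A vertex of the boundary far from the outer faces is wired. -/
theorem bd_clu (hD : D.Ok) (F : Finset Edg) {z : Vtx} {R : ℕ}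
    (hout : ∀ f ∈ D.outer, (R : ℤ) + 2 ≤ sd f z) {u : Vtx} (hu : inR D.l D.r 0 D.h u)
    (hz : sd u z ≤ R) (hb : u.1 = D.l ∨ u.1 = D.r ∨ u.2 = 0 ∨ u.2 = D.h) : u ∈ D.clu F := by
  obtain ⟨a, b⟩ := u
  obtain ⟨k1, k2, k3, k4, k5⟩ := hD
  unfold inR at hu
  rw [sd_le] at hz
  simp only at hu hz hb
  rcases hb with rfl | rfl | rfl | rfl
  · exact wired_left ⟨k1, k2, k3, k4, k5⟩ F hu.2.1 hu.2.2
  · have h1 := hout (D.r, b) (Or.inr (Or.inl ⟨rfl, by simp only; omega, hu.2.2⟩))
    rw [le_sd] at h1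
    simp only at h1
    omega
  · by_cases ha : a ≤ 0
    · exact wired_bottom F hu.1.1 ha
    · have h1 := hout (a, -1) (Or.inl ⟨rfl, by simp only; omega, hu.1.2⟩)
      rw [le_sd] at h1
      simp only at h1
      omega
  · by_cases ha : a ≤ D.t
    · exact wired_top ⟨k1, k2, k3, k4, k5⟩ F hu.1.1 ha
    · have h1 := hout (a, D.h) (Or.inr (Or.inr ⟨rfl, by simp only; omega, hu.1.2⟩))
      rw [le_sd] at h1
      simp only at h1
      omega

/-- An edge at a vertex of the rectangle which is not an edge of the rectangle. -/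
theorem bd_of_not {u : Vtx} (hu : inR D.l D.r 0 D.h u) {g : Edg} (h : src g = u ∨ tgt g = u)
    (hg : g ∉ D.edges) : u.1 = D.l ∨ u.1 = D.r ∨ u.2 = 0 ∨ u.2 = D.h := by
  obtain ⟨x, y, b⟩ := g
  unfold Dm.edges at hg
  unfold inR at hu
  cases b
  · rw [mem_RE_false] at hg
    rcases h with rfl | rfl
    · simp only [src_mk] at hu ⊢; omega
    · simp only [tgt_false] at hu ⊢; omega
  · rw [mem_RE_true] at hg
    rcases h with rfl | rfl
    · simp only [src_mk] at hu ⊢; omega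
    · simp only [tgt_true] at hu ⊢; omega

end Pool.Agent.N531.PN.VW
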