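import Pool.Agent.N531.PN.VWa

/-!
Project PN, subtask PN/VW (helper531): long excursions near the wired arc.
-/

set_option autoImplicit false

namespace Pool.Agent.N531.PN.VW

open H974 H12S H389NS H984N H984P H342P Finset
open Pool.Agent.N116.EW

/-- The closed edges of the rectangle in the annulus. -/
def cE' (D : Dm) (z : Vtx) (d R : ℕ) (F : Finset Edg) : Set Edg :=
  {e | e ∈ D.edges ∧ e ∉ F ∧ e ∈ blk z R \ blk z d}

theorem key (D : Dm) (hD : D.Ok) (G B : Finset Edg) (hG : G ⊆ D.edges) (z : Vtx)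
    (d R ρ : ℕ) (hdR : d + 4 ≤ R) (hρ : R + d + 4 ≤ ρ)
    (hB : B ⊆ blk z d) (hout : ∀ f ∈ D.outer, (R : ℤ) + 2 ≤ sd f z)
    (hbad : BadV D ρ (G \ B) G) :
    (∃ f g f' g' : Vtx, (sd f z ≤ d + 1 ∧ (R : ℤ) ≤ sd g z ∧ DReach (cE' D z d R G) f g) ∧
      (sd f' z ≤ d + 1 ∧ (R : ℤ) ≤ sd g' z ∧ DReach (cE' D z d R G) f' g') ∧
      ¬ DReach (cE' D z d R G) f f') ∧
    (∃ u w : Vtx, sd u z ≤ d ∧ (R : ℤ) ≤ sd w z ∧
      Reach ((↑G : Set Edg) ∩ ↑(blk z R \ blk z d)) u w) := by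
  obtain ⟨e, heG, heF, x, v, y, hEn, hy, hx, hv, hyG, w, hw, hr⟩ := hbad
  set C : Set Vtx := D.clu (G \ B) with hC
  have heD : e ∈ D.edges := hG heG
  have heB : e ∈ B := by
    by_contra hcon
    apply heF
    left
    rw [Finset.mem_coe, Finset.mem_sdiff]
    exact ⟨heG, hcon⟩
  have hewir : e ∉ D.wir := fun h => heF (Or.inr h)
  have hed : e ∈ blk z d := hB heB
  have hxz : sd x z ≤ d := by
    rcases hEn with ⟨h, _⟩ | ⟨h, _⟩
    · rw [h]; exact blk_src hed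
    · rw [h]; exact blk_tgt hed
  have hvz : sd v z ≤ d := by
    rcases hEn with ⟨_, h⟩ | ⟨_, h⟩
    · rw [h]; exact blk_tgt hed
    · rw [h]; exact blk_src hed
  -- the excursion
  set P : Set Edg := {g | g ∈ G ∧ src g ∉ C ∧ tgt g ∉ C} with hP
  have hrP : Reach P v w := by
    refine hr.mono ?_
    rintro g ⟨h1, h2, h3⟩
    refine ⟨?_, h2, h3⟩
    rcases h1 with h1 | h1
    · exact h1
    · exact absurd (wir_clu hD _ h1).1 h2
  have hwz : (R : ℤ) + 4 ≤ sd w z := by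
    rw [le_sd] at hw ⊢
    rw [sd_le] at hvz
    have h1 : ((R + d + 4 : ℕ) : ℤ) ≤ ρ := by exact_mod_cast hρ
    push_cast at h1
    omega
  -- the boundary of the box
  have hQd : e ∈ blk z R := by
    have := hed
    obtain ⟨a, b, _ | _⟩ := e
    · unfold blk at this ⊢
      rw [mem_RE_false] at this ⊢
      omega
    · unfold blk at this ⊢
      rw [mem_RE_true] at this ⊢
      omega
  set F2 : Set Edg := (D.cfg (G \ B) ∪ (↑D.edges : Set Edg)ᶜ ∪ P) ∩ ↑(blk z R) with hF2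
  have heF2 : e ∉ F2 := by
    rintro ⟨(h | h) | h, _⟩
    · exact heF h
    · exact h heD
    · rcases hEn with ⟨h1, _⟩ | ⟨h1, _⟩
      · exact h.2.1 (h1 ▸ hx)
      · exact h.2.2 (h1 ▸ hx)
  have h00 : (R : ℤ) ≤ sd ((0, 0) : Vtx) z := by
    have h1 := hout (0, -1) (Or.inl ⟨rfl, le_rfl, hD.r_pos.le⟩)
    rw [le_sd] at h1 ⊢
    simp only at h1 ⊢
    omega
  have hxb : ∃ w' ∈ bdR (z.1 - R) (z.1 + R) (z.2 - R) (z.2 + R), Reach F2 x w' := by
    have h1 : Reach (D.cfg (G \ B)) (0, 0) x := hx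
    obtain ⟨w', h2, h3⟩ := exitP' (z := z) (R := R) h1.symm (by omega) h00
    exact ⟨w', h2, h3.mono (Set.inter_subset_inter_left _ (fun g hg => Or.inl (Or.inl hg)))⟩
  have hvb : ∃ w' ∈ bdR (z.1 - R) (z.1 + R) (z.2 - R) (z.2 + R), Reach F2 v w' := by
    obtain ⟨w', h2, h3⟩ := exitP' (z := z) (R := R) hrP (by omega) (by omega)
    exact ⟨w', h2, h3.mono (Set.inter_subset_inter_left _ (fun g hg => Or.inr hg))⟩
  -- the ends are not connected
  have hvin : inR D.l D.r 0 D.h v := by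
    have h1 : inR D.l D.r 0 D.h (src e) ∧ inR D.l D.r 0 D.h (tgt e) := by
      have := clu_cfg_in hD (F := G) hG (e := e) (Or.inl heG)
      exact this
    rcases hEn with ⟨_, h⟩ | ⟨_, h⟩
    · rw [h]; exact h1.2
    · rw [h]; exact h1.1
  have hFD : G \ B ⊆ D.edges := Finset.sdiff_subset.trans hG
  have hinv : ∀ u, Reach F2 v u → u ∉ C ∧ inR D.l D.r 0 D.h u := by
    intro u hu
    unfold Reach at hu
    induction hu with
    | refl => exact ⟨hv, hvin⟩
    | @tail a b _ hst ih =>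
      obtain ⟨g, ⟨hg, hgR⟩, hor⟩ := hst
      have haz : sd a z ≤ R := by
        rcases hor with ⟨h2, _⟩ | ⟨_, h2⟩
        · rw [← h2]; exact blk_src hgR
        · rw [← h2]; exact blk_tgt hgR
      have hends : (src g = a ∨ tgt g = a) := by
        rcases hor with ⟨h2, _⟩ | ⟨_, h2⟩
        · exact Or.inl h2
        · exact Or.inr h2
      rcases hg with (hg | hg) | hg
      · have h5 : b ∉ C := by
          intro hb
          apply ih.1
          have hb' : Reach (D.cfg (G \ B)) (0, 0) b := hb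
          exact hb'.trans (Adj.reach ⟨g, hg, hor.symm⟩)
        refine ⟨h5, ?_⟩
        have h6 := clu_cfg_in hD hFD hg
        rcases hor with ⟨_, h2⟩ | ⟨h2, _⟩
        · rw [← h2]; exact h6.2
        · rw [← h2]; exact h6.1
      · exact absurd (bd_clu hD (G \ B) hout ih.2 haz (bd_of_not ih.2 hends hg)) ih.1
      · have h6 := clu_cfg_in hD (F := G) hG (e := g) (Or.inl hg.1)
        rcases hor with ⟨_, h2⟩ | ⟨h2, _⟩
        · rw [← h2]; exact ⟨hg.2.2, h6.2⟩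
        · rw [← h2]; exact ⟨hg.2.1, h6.1⟩
  have hnxv : ¬ Reach F2 v x := fun h => (hinv x h).1 hx
  have hnst : ¬ Reach F2 (src e) (tgt e) := by
    rcases hEn with ⟨h1, h2⟩ | ⟨h1, h2⟩
    · rw [← h1, ← h2]; exact fun h => hnxv h.symm
    · rw [← h1, ← h2]; exact hnxv
  have hsb : ∃ w' ∈ bdR (z.1 - R) (z.1 + R) (z.2 - R) (z.2 + R), Reach F2 (src e) w' := by
    rcases hEn with ⟨h1, h2⟩ | ⟨h1, h2⟩
    · rw [← h1]; exact hxb
    · rw [← h2]; exact hvb
  have htb : ∃ w' ∈ bdR (z.1 - R) (z.1 + R) (z.2 - R) (z.2 + R), Reach F2 (tgt e) w' := by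
    rcases hEn with ⟨h1, h2⟩ | ⟨h1, h2⟩
    · rw [← h2]; exact hvb
    · rw [← h1]; exact hxb
  have hF2Q : F2 ⊆ ↑(RE (z.1 - R) (z.1 + R) (z.2 - R) (z.2 + R)) := fun g hg => hg.2
  set S : Set Edg := (↑(RE (z.1 - R) (z.1 + R) (z.2 - R) (z.2 + R)) \ F2) \ {e} with hS
  have hSblk : S ⊆ ↑(blk z R) := fun g hg => hg.1.1
  have hSD : S ⊆ ↑D.edges := by
    intro g hg
    by_contra hcon
    exact hg.1.2 ⟨Or.inl (Or.inr hcon), hg.1.1⟩
  have hScE : S ∩ ↑(blk z R \ blk z d) ⊆ cE' D z d R G := by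
    rintro g ⟨hg, hg2⟩
    refine ⟨hSD hg, ?_, hg2⟩
    intro hgG
    apply hg.1.2
    refine ⟨Or.inl (Or.inl (Or.inl ?_)), hg.1.1⟩
    rw [Finset.mem_coe, Finset.mem_sdiff]
    refine ⟨hgG, fun hgB => ?_⟩
    rw [Finset.mem_coe, Finset.mem_sdiff] at hg2
    exact hg2.2 (hB hgB)
  -- the dual arms
  obtain ⟨g1, hg1, hr1⟩ := dual_arm (f0 := dsrc e) (f1 := dtgt e) hF2Q hQd heF2 hsb htb hnst
    (Or.inl ⟨rfl, rfl⟩)
  obtain ⟨g2, hg2, hr2⟩ := dual_arm (f0 := dtgt e) (f1 := dsrc e) hF2Q hQd heF2 hsb htb hnst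
    (Or.inr ⟨rfl, rfl⟩)
  have hsep := dual_sep hF2Q hQd heF2 hsb htb
  obtain ⟨f, hf1, hf2, hf3⟩ := cutD (d := d) hSblk hr1 (blk_dsrc hed)
  obtain ⟨f', hf1', hf2', hf3'⟩ := cutD (d := d) hSblk hr2 (blk_dtgt hed)
  refine ⟨⟨f, g1, f', g2, ⟨hf1, outF_far hg1, hf3.mono hScE⟩,
    ⟨hf1', outF_far hg2, hf3'.mono hScE⟩, ?_⟩, ?_⟩
  · intro hcon
    apply hsep
    have hfix := ret_fix heD hewir
      (fun h => by
        have h1 := hout _ h
        have h2 := blk_dsrc hed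
        omega)
      (fun h => by
        have h1 := hout _ h
        have h2 := blk_dtgt hed
        omega)
    have p1 : DReach S (ret D (dsrc e)) (ret D f) :=
      ret_path hD hSD (fun k hk _ => hk) hf2
    have p2 : DReach S (ret D (dtgt e)) (ret D f') :=
      ret_path hD hSD (fun k hk _ => hk) hf2'
    have p3 : DReach S (ret D f) (ret D f') := by
      refine ret_path hD (fun k hk => hk.1) ?_ hcon
      rintro k ⟨h1, h2, h3⟩ h4
      rw [Finset.mem_sdiff] at h3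
      refine ⟨⟨h3.1, ?_⟩, ?_⟩
      · rintro ⟨((h5 | h5) | h5) | h5, _⟩
        · rw [Finset.mem_coe, Finset.mem_sdiff] at h5
          exact h2 h5.1
        · exact h4 h5
        · exact h5 h1
        · exact h2 h5.1
      · intro h5
        rw [Set.mem_singleton_iff] at h5
        exact h2 (h5 ▸ heG)
    rw [hfix.1] at p1
    rw [hfix.2] at p2
    exact (p1.trans p3).trans p2.symm
  · rcases cutP (R := R) hrP hvz with ⟨u, h1, h2⟩ | ⟨u, w', h1, h2, h3⟩
    · exact ⟨u, w, h1, by omega, h2.mono (Set.inter_subset_inter_left _ (fun g hg => hg.1))⟩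
    · exact ⟨u, w', h1, h2, h3.mono (Set.inter_subset_inter_left _ (fun g hg => hg.1))⟩

end Pool.Agent.N531.PN.VW
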