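import Pool.Agent.N931.PN.Stm
import Pool.Agent.N531.PN.VWb

/-!
Project PN, subtask PN/VW (helper531): long excursions near the wired arc.
-/

set_option autoImplicit false

namespace Pool.Agent.N531.PN.VW

open H974 H12S H389NS H984N H984P H342P Finset
open Pool.Agent.N116.EW

theorem main : Pool.Agent.N931.PN.S_VW := by
  intro D hD G B hG z d R ρ _ _ hdR hρ hB hout hbad
  exact key D hD G B hG z d R ρ hdR hρ hB hout hbad

end Pool.Agent.N531.PN.VW
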